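import Pool.Agent.H74A.VG

set_option autoImplicit false

/-! # The strong monodromy conjecture for hypersurfaces with cones over forms `f(x_0, ..., x_n)`
whose root `-(n + 1) / d` is not given by the log canonical threshold

Let `F` be a polynomial in `N` variables. Its global topological zeta function is
`Z = χ_0 + ∑_i χ_i z_i`, where `χ_0` is the Euler characteristic of the set `F ≠ 0`, the `z_i` are the
different local topological zeta functions of `F` at the points of the hypersurface, and the `χ_i` are
the Euler characteristics of the (constructible) sets of the points with the zeta function `z_i`.

We assume that the germs are in the class `VGerm`: each of them becomes, in suitable formal coordinates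
and up to a unit, either a member of the class `𝓢` of iterated suspensions of plane curves (`SusZeta`;
for instance an arbitrary germ in two of the variables), or a form `f(x_0, ..., x_n)` of degree `d`,
`n + 1 ≤ N`, whose germs at points different from the origin are again in the class. In the second
case we ask that the pole is not `-(n + 1) / d`, or that one of the following conditions holds.

* (O) `2 ≤ n < d`, and the points of the projective hypersurface `f = 0` of multiplicity larger than
  `d / (n + 1)` are ordinary singularities; the singularities of smaller multiplicity are arbitrary;
  and `f` is not of the form `(x_0 + l) ^ k g`, with `l` and `g` in `x_1, ..., x_n`, in any linear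
  coordinates.
* (H) The hypersurface has a point of multiplicity `m`, `n d / (n + 1) < m < d`, with a condition on the
  log canonical threshold of the tangent cone; so the log canonical threshold of `f` is smaller
  than `(n + 1) / d`. The singularities at the other points are arbitrary.
* (L) The log canonical threshold of `f` is at least `(n + 1) / d` outside of the origin.
* (R) The form `f` is positive on an open real cone `Ω`, zero on its boundary, with `∫ f ^ (-c)` finite
  over `Ω`, outside of the origin, for `c < (n + 1) / d`.

Under these conditions `-(n + 1) / d` is a root of the Bernstein-Sato polynomial of `f`
(`form_root`).

For example, let `f(x, y, z)` be a form of degree `d` in three variables. All its germs outside of the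
origin are germs in two variables. So the strong monodromy conjecture holds for the topological zeta
function of `f` if `d ≥ 3` and all the points of the curve `f = 0` of multiplicity larger than `d / 3`
are ordinary (in particular if all the singularities of the curve are ordinary), with the exception of
`d` concurrent lines and of `d - 1` concurrent lines and one more line; and it holds if the curve has
a point of multiplicity `m` with `m` different tangents, where `2 d / 3 < m < d`, whatever the other
singularities are (again with the exception of `(x + l) ^ k g`).

Method for (H). Suppose that `s₀ = -(n + 1) / d` is not a root of `b_f`. By the functional equation,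
the analytic continuation of `∫ |f| ^ (2 s) φ` has no pole at `s₀` caused by the origin: the
regularised integral of the density `|f| ^ (2 s₀)` over projective space is zero. The lines through the
point `P` of multiplicity `m` give a fibration, and the regularised fibre integrals have a sign: by the
inequality of the arithmetic and the geometric mean,
`∏ |x - z_i| ^ (2 s) ≤ (1 / k) ∑_i |x - z_i| ^ (2 k s)`, and the regularised integral of the right hand
side is zero. So they are negative unless all zeros `z_i` are equal. (O) is reduced to (L) and (H) with
estimates of the local log canonical thresholds. -/

namespace Pool.Agent.Results.MP_504089_ag.ConesBeyondLct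

open Pool.Agent.H74D
open Pool.Agent.H628R4.TP (IsBFunction)
open Pool.Agent.Y229.RE (trans)

/-- **The strong monodromy conjecture for the topological zeta functions of hypersurfaces with germs in
the class `VGerm`.** Let `F` be a polynomial in `N` variables, let `b` satisfy a functional equation
`b(s) F ^ s = P(s) F ^ (s + 1)`, let `s₀` be a complex number, let the `z_i` be the local topological
zeta functions of the germs of `F` at points `p_i`, which are in the class `VGerm` (for `s₀`), and let
`Z = χ₀ + ∑_i χ_i z_i`, where the `χ`s are integers; the global topological zeta function of `F` is of
this form. If `s₀` is a pole of `Z`, then `b(s₀) = 0`. -/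
theorem result {N : ℕ} (F : MvPolynomial (Fin N) ℂ) (b : Polynomial ℂ) (hb : IsBFunction F b)
    (s₀ : ℂ) (l : ℕ) (p : Fin l → Fin N → ℂ) (z : Fin l → RatFunc ℂ)
    (hz : ∀ i, VGerm 1 s₀ (trans (p i) F : MvPowerSeries (Fin N) ℂ) (z i)) (χ₀ : ℤ)
    (χ : Fin l → ℤ) (Z : RatFunc ℂ) (hZ : Z = (χ₀ : RatFunc ℂ) + ∑ i, (χ i : RatFunc ℂ) * z i)
    (hs₀ : Z.denom.eval s₀ = 0) : b.eval s₀ = 0 := by
  subst hZ
  exact vgerm_global F b hb 1 le_rfl s₀ l p z hz χ₀ χ hs₀

end Pool.Agent.Results.MP_504089_ag.ConesBeyondLct
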