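import Pool.Agent.H73.DA.Fin

set_option autoImplicit false

/-!
# The strong monodromy conjecture for products of diagonal polynomials with real coefficients

Let `f(y) = ∏_j y_j ^ (a_j) · ∏_i (∑_j c_ij y_j ^ (w_j) + e_i) ^ (m_i)`, with real numbers `c_ij`,
`e_i` and integers `w_j, m_i ≥ 1`, `a_j ≥ 0` (`Data`, `poly`). For example: all arrangements of
hyperplanes defined over `ℝ` (`w_j = 1`), and products of Brieskorn-Pham polynomials. In general
`f` has nonisolated singularities and is not weighted homogeneous.

**The candidate poles.** Put `x_j = y_j ^ (w_j)`. The `elements` are the hyperplanes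
`∑_j c_ij x_j + e_i = 0` and the `walls` `x_j = 0`, for `w_j ≠ 1` or `a_j ≠ 0`. For a point
`x ∈ ℝ ^ (n + 1)` let `A = through x` be the set of the elements which contain `x`. All flats of the
arrangement of the elements (also the complex ones, as the elements are real) have a general real
point, so all flats are of the form `through x`. For a set `B` of elements let

  `ν B = rank B - ∑_{walls j ∈ B} (1 - 1 / w_j)`,   `N B = ∑_{i ∈ B} m_i + ∑_{walls j ∈ B} a_j / w_j`.

Let `W` be the wonderful model of the arrangement: the flats `A` which are irreducible (`rank` is not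
additive for a decomposition of `A`) are blown up; the divisors `E_A` cross normally. The
normalization `V` of the fibre product of `W` and of `y ↦ (y_j ^ (w_j))` has abelian quotient
singularities, and is a resolution of `f` with normal crossings in this sense (a `ℚ`-resolution). If
`e_A` is the order of ramification along `E_A`, then `f` has multiplicity `e_A N A` and the form
`dy_0 ⋯ dy_n` has multiplicity `e_A ν A - 1` along the divisors over `E_A`. The topological zeta function
can be computed on a `ℚ`-resolution (Veys 1997): it has the form `zeta`,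

  `∑_I χ_I ∏_{A ∈ I} 1 / (N A · s + ν A)`,

with rational numbers `χ_I` (the Euler characteristics of the strata, times factors which come from
the groups and from the `e_A`). So its poles are among the numbers `- ν A / N A`, where `A` is
irreducible, `N A > 0`. This description is not used and not proved here; the theorem is about
the functions `zeta` with arbitrary complex numbers `χ_I`.

**The theorem.** A set `B` of elements through `x` is `Heavy` if `ν B / N B < ν A / N A`, where
`A = through x`. (If there is a heavy set then the local log canonical threshold is less than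
`ν A / N A`.)

1. If `A` has a light chamber then `- ν A / N A` is a root of the Bernstein-Sato polynomial of `f`
(of every polynomial in a functional equation of `f`). Here a chamber is a component of the
complement in `ℝ ^ (n + 1)` of the hyperplanes `ℓ_k = 0`, `k ∈ A`, where `ℓ_k` is the linear part of the
equation of `k`; it is light if the closure does not meet any heavy flat outside the centre
`ℓ_k = 0`, `k ∈ A`. Hence the strong monodromy conjecture holds for `f` if all irreducible flats have
light chambers.

2. If `A` is irreducible, and all heavy flats in `A` have a common element, then `A` has a light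
chamber.

3. In at most three variables, if no two elements are equal, all irreducible flats `A` have light
chambers if `f` is squarefree (`m_i = 1`, `a_j ≤ 1`). For `f` with multiplicities, `A` has a light
chamber if there is at most one element `k` in `A` such that `{k}` is heavy.

So the strong monodromy conjecture holds for all squarefree `f` in at most three variables. For
instance for `f = (x ^ a - y ^ b) (y ^ b - z ^ c) (z ^ c - x ^ a) (x ^ a + y ^ b + z ^ c)`, and for
`f = (x ^ a - y ^ b) (x ^ a - 2 y ^ b) ⋯ (x ^ a - r y ^ b) · (z ^ c - x ^ a) (z ^ c - y ^ b)`, where the line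
`x = y = 0` is heavy for large `r`, and the root which belongs to the origin lies beyond the log
canonical threshold.

**The proof.** If `C` is a light chamber then the integral `∫ |f| ^ s ρ` over the points `y > 0` such
that `(y_j ^ (w_j))` is near `x` and in `x + C` converges for `s > - ν A / N A`, and tends to infinity
for `s → - ν A / N A`; this uses that the integral over the cone is finite away from the centre. By
substitutions `y_j ↦ ζ_j y_j`, `ζ_j ^ (w_j) = ± 1`, the chamber can be assumed to be in the right orthant.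
The test functions are functions of the `y_j ^ (w_j)` and `f` need not vanish on the faces `y_j = 0`, so
the functional equation is averaged over the group of the `y_j ↦ ζ_j y_j`, `ζ_j ^ (w_j) = 1`, before the
integration by parts. For 2. a region is chosen which is bounded if the common element is at
infinity. For 3.: for the weights `1 - 1 / w_j + α a_j / w_j` and `α m_i`, `α = ν A / N A`, the sum over
`A` is the rank, so heavy flats are rare.

Four parts of the proof were written by other agents: the integration by parts (helper15,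
`Pool/Agent/H15DA`), the averaged adjunction (helper45, `Pool/Agent/H45/DA`), the substitution
`x_j = y_j ^ (w_j)` (helper91, `Pool/Agent/H91DA`), the combinatorics for squarefree `f` (helper90,
`Pool/Agent/H90/DA`). The real method (without faces and weights) is from helper74
(`Pool/Agent/H74A`).
-/

namespace Pool.Agent.Results.MP_504089_ag.DiagonalArrangements

open MvPolynomial Module
open Pool.Agent.H628R4.TP (IsBFunction)

/-- The data of the polynomial
`∏_j y_j ^ (a_j) · ∏_i (∑_j c_ij y_j ^ (w_j) + e_i) ^ (m_i)` in the variables `y_0, ..., y_n`. -/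
structure Data (n : ℕ) (ι : Type) where
  c : ι → Fin (n + 1) → ℝ
  e : ι → ℝ
  m : ι → ℕ
  w : Fin (n + 1) → ℕ
  a : Fin (n + 1) → ℕ
  c_ne_zero : ∀ i, c i ≠ 0
  m_pos : ∀ i, 0 < m i
  w_pos : ∀ j, 0 < w j

namespace Data

variable {n : ℕ} {ι : Type} [Fintype ι] (D : Data n ι)

/-- The polynomial `f`. -/
noncomputable def poly : MvPolynomial (Fin (n + 1)) ℂ :=
  (∏ j, X j ^ D.a j) * ∏ i, (∑ j, C ((D.c i j : ℝ) : ℂ) * X j ^ D.w j + C ((D.e i : ℝ) : ℂ)) ^ D.m i

/-- The coefficients of the linear part of the equation of the hyperplane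
`∑_j c_ij x_j + e_i = 0`, for `k = inl i`, or `x_j = 0`, for `k = inr j`. -/
def coeffs : ι ⊕ Fin (n + 1) → Fin (n + 1) → ℝ := Sum.elim D.c fun j => Pi.single j 1

/-- The linear part `ℓ_k` of the equation. -/
def form (k : ι ⊕ Fin (n + 1)) (v : Fin (n + 1) → ℝ) : ℝ := ∑ j, D.coeffs k j * v j

/-- The element `k` contains the point `x`: for `k = inl i` the number `∑_j c_ij x_j + e_i` is
zero, and for `k = inr j` the number `x_j` is zero and `w_j ≠ 1` or `a_j ≠ 0`. -/
def Contains (x : Fin (n + 1) → ℝ) : ι ⊕ Fin (n + 1) → Prop :=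
  Sum.elim (fun i => ∑ j, D.c i j * x j + D.e i = 0) fun j => (D.w j ≠ 1 ∨ D.a j ≠ 0) ∧ x j = 0

open Classical in
/-- The set of the elements which contain `x`. -/
noncomputable def through (x : Fin (n + 1) → ℝ) : Finset (ι ⊕ Fin (n + 1)) :=
  Finset.univ.filter (D.Contains x)

/-- The codimension of the intersection of the hyperplanes `ℓ_k = 0`, `k ∈ B`. -/
noncomputable def rank (B : Finset (ι ⊕ Fin (n + 1))) : ℕ :=
  finrank ℝ (Submodule.span ℝ (D.coeffs '' (B : Set (ι ⊕ Fin (n + 1)))))

/-- `∑_{i ∈ B} m_i + ∑_{j ∈ B} a_j / w_j` -/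
noncomputable def N (B : Finset (ι ⊕ Fin (n + 1))) : ℝ :=
  ∑ k ∈ B, Sum.elim (fun i => (D.m i : ℝ)) (fun j => (D.a j : ℝ) / (D.w j : ℝ)) k

/-- `rank B - ∑_{j ∈ B} (1 - 1 / w_j)` -/
noncomputable def ν (B : Finset (ι ⊕ Fin (n + 1))) : ℝ :=
  (D.rank B : ℝ) - ∑ k ∈ B, Sum.elim (fun _ : ι => (0 : ℝ)) (fun j => 1 - 1 / (D.w j : ℝ)) k

/-- `B` is heavy in `A`: `ν B / N B < ν A / N A`. -/
def Heavy (A B : Finset (ι ⊕ Fin (n + 1))) : Prop := D.ν B * D.N A < D.ν A * D.N B

/-- The point `v` is in a light chamber of `A = through x`: the `ℓ_k v`, `k ∈ A`, are not zero, and for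
each point `y` of the closure of the chamber of `v` where not all `ℓ_k`, `k ∈ A`, are zero, no set `B` of
elements of `A` with `ℓ_k y = 0` for all `k ∈ B` is heavy. -/
def IsLight (x v : Fin (n + 1) → ℝ) : Prop :=
  (∀ k ∈ D.through x, D.form k v ≠ 0) ∧
    ∀ y, (∀ k ∈ D.through x, 0 ≤ D.form k v * D.form k y) → (∃ k ∈ D.through x, D.form k y ≠ 0) →
      ∀ B ⊆ D.through x, (∀ k ∈ B, D.form k y = 0) → ¬ D.Heavy (D.through x) B

/-- `through x` has a light chamber. -/
def HasLightChamber (x : Fin (n + 1) → ℝ) : Prop := ∃ v, D.IsLight x v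

/-- `A` is irreducible: not empty, and not the disjoint union of two nonempty sets with
`rank A = rank B + rank (A \ B)`. -/
def Irreducible [DecidableEq ι] (A : Finset (ι ⊕ Fin (n + 1))) : Prop :=
  A.Nonempty ∧ ∀ B ⊆ A, B.Nonempty → B ≠ A → D.rank A ≠ D.rank B + D.rank (A \ B)

/-- `B` is a flat in `A`: it contains all elements `k` of `A` for which the linear form `ℓ_k` is a
combination of the `ℓ_k'`, `k' ∈ B`. -/
def IsFlat [DecidableEq ι] (A B : Finset (ι ⊕ Fin (n + 1))) : Prop :=
  B ⊆ A ∧ ∀ k ∈ A, D.rank (insert k B) = D.rank B → k ∈ B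

/-- The elements are pairwise different: no two of the polynomials `∑_j c_ij x_j + e_i` are
proportional, and none is a multiple of `x_j`, where `w_j ≠ 1` or `a_j ≠ 0`. -/
def Distinct : Prop :=
  (∀ i i', i ≠ i' → ∀ t : ℝ, ¬ (D.c i' = t • D.c i ∧ D.e i' = t * D.e i)) ∧
    ∀ i j, (D.w j ≠ 1 ∨ D.a j ≠ 0) → ∀ t : ℝ, ¬ (D.c i = Pi.single j t ∧ D.e i = 0)

end Data

/-- The rational function `∑_I χ_I ∏_{k ∈ I} 1 / (N_k s + ν_k)`. -/
noncomputable def zeta {κ : Type} [Fintype κ] (N ν : κ → ℝ) (χ : Finset κ → ℂ) : RatFunc ℂ :=
  ∑ I : Finset κ, RatFunc.C (χ I) *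
    ∏ k ∈ I, (RatFunc.C ((N k : ℝ) : ℂ) * RatFunc.X + RatFunc.C ((ν k : ℝ) : ℂ))⁻¹

section lemmas

open Pool.Agent.TH192.DT

private theorem reg_fac (s α β : ℂ) (h : α * s + β ≠ 0 ∨ α = 0) :
    Reg s ((RatFunc.C α * RatFunc.X + RatFunc.C β)⁻¹) := by
  by_cases h1 : α * s + β = 0
  · have h0 : α = 0 := h.resolve_left (fun h => h h1)
    have e1 : RatFunc.C α * RatFunc.X + RatFunc.C β = (0 : RatFunc ℂ) := by
      rw [h0] at h1 ⊢
      have h2 : β = 0 := by simpa using h1
      rw [h2]
      simp
    rw [e1, inv_zero]
    have := reg_C s 0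
    rwa [map_zero] at this
  · refine ⟨1, Polynomial.C α * Polynomial.X + Polynomial.C β, by simpa using h1, ?_⟩
    have h2 : algebraMap (Polynomial ℂ) (RatFunc ℂ) (Polynomial.C α * Polynomial.X + Polynomial.C β)
        = RatFunc.C α * RatFunc.X + RatFunc.C β := by
      rw [map_add, map_mul, RatFunc.algebraMap_C, RatFunc.algebraMap_C, RatFunc.algebraMap_X]
    rw [h2, map_one, inv_mul_cancel₀]
    rw [← h2]
    have h3 : (Polynomial.C α * Polynomial.X + Polynomial.C β : Polynomial ℂ) ≠ 0 := by
      intro h3
      apply h1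
      have := congrArg (Polynomial.eval s) h3
      simpa using this
    exact (map_ne_zero_iff _ (IsFractionRing.injective (Polynomial ℂ) (RatFunc ℂ))).2 h3

private theorem pole_zeta {κ : Type} [Fintype κ] (N ν : κ → ℝ) (hN : ∀ k, 0 ≤ N k)
    (χ : Finset κ → ℂ) (s : ℂ) (h : (zeta N ν χ).denom.eval s = 0) :
    ∃ k, 0 < N k ∧ s = ((-(ν k / N k) : ℝ) : ℂ) := by
  by_contra hcon
  push Not at hcon
  refine reg_denom (reg_sum s _ _ fun I _ => reg_mul (reg_C s _) (reg_prod s _ _ fun k _ =>
    reg_fac s _ _ ?_)) h
  rcases (hN k).eq_or_lt with h0 | h0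
  · right
    rw [← h0]
    simp
  · left
    intro h1
    apply hcon k h0
    have h2 : ((N k : ℝ) : ℂ) ≠ 0 := by exact_mod_cast h0.ne'
    push_cast
    field_simp
    linear_combination h1

open Pool.Agent.H73.DA in
private theorem through_eq {n : ℕ} {ι : Type} [Fintype ι] [DecidableEq ι] (D : Data n ι)
    (x : Fin (n + 1) → ℝ) : D.through x = flatAt D.c D.e D.w D.a x := by
  ext k
  rcases k with i | j
  · rw [mem_flat_l]
    simp [Data.through, Data.Contains]
  · rw [mem_flat_r]
    simp [Data.through, Data.Contains]

open Pool.Agent.H73.DA in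
private theorem light_iff {n : ℕ} {ι : Type} [Fintype ι] [DecidableEq ι] (D : Data n ι)
    (x : Fin (n + 1) → ℝ) : D.HasLightChamber x ↔ LC D.c D.e D.m D.w D.a x := by
  have hf : ∀ k v, D.form k v = LL D.c k v := fun k v => (LL_vec D.c k v).symm
  unfold Data.HasLightChamber Data.IsLight LC
  simp only [through_eq, hf]
  refine exists_congr fun v => and_congr_right fun _ => forall_congr' fun y =>
    forall_congr' fun _ => forall_congr' fun _ => forall_congr' fun B => forall_congr' fun _ =>
      forall_congr' fun _ => ?_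
  exact not_lt

open Pool.Agent.H73.DA in
private theorem irr_iff {n : ℕ} {ι : Type} [Fintype ι] [DecidableEq ι] (D : Data n ι)
    (A : Finset (ι ⊕ Fin (n + 1))) (h : D.Irreducible A) : Irrd D.c A := by
  refine ⟨h.1, fun B hB hBn hBA => lt_of_le_of_ne ?_ (h.2 B hB hBn hBA)⟩
  have h1 := (rk_rank D.c).sub B (A \ B)
  rw [Finset.union_sdiff_of_subset hB] at h1
  exact (Nat.le_add_right _ _).trans h1

end lemmas

/-- **The strong monodromy conjecture for products of diagonal polynomials with real
coefficients.** Let `f` be the polynomial with the data `D`.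

(1) Let `b` be the Bernstein-Sato polynomial of `f`, or any polynomial which satisfies a functional
equation `b(s) f ^ s = P(s) f ^ (s + 1)`. Let `A_k = through (x_k)` be flats, `k ∈ κ`, such that `A_k` has
a light chamber if `N (A_k) > 0`. Then the numbers `- ν (A_k) / N (A_k)`, `N (A_k) > 0`, are roots of
`b`, and all poles of the functions `∑_I χ_I ∏_{k ∈ I} 1 / (N (A_k) s + ν (A_k))` are roots of `b`.

(2) If `A = through x` is irreducible, and the heavy flats in `A`, except `A`, have a common element `h`,
then `A` has a light chamber.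

(3) Let `n + 1 ≤ 3`, and let the elements be pairwise different. Let `A = through x` be irreducible,
`N A > 0`. If `f` is squarefree, or if there is at most one element `k` in `A` such that `{k}` is heavy in
`A`, then `A` has a light chamber. -/
theorem result :
    (∀ {n : ℕ} {ι : Type} [Fintype ι] (D : Data n ι) (b : Polynomial ℂ) (_ : IsBFunction D.poly b)
      {κ : Type} [Fintype κ] (x : κ → Fin (n + 1) → ℝ)
      (_ : ∀ k, 0 < D.N (D.through (x k)) → D.HasLightChamber (x k)),
      (∀ k, 0 < D.N (D.through (x k)) →
        b.eval ((-(D.ν (D.through (x k)) / D.N (D.through (x k))) : ℝ) : ℂ) = 0) ∧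
      ∀ (χ : Finset κ → ℂ) (s₀ : ℂ),
        (zeta (fun k => D.N (D.through (x k))) (fun k => D.ν (D.through (x k))) χ).denom.eval s₀ = 0 →
          b.eval s₀ = 0) ∧
    (∀ {n : ℕ} {ι : Type} [Fintype ι] [DecidableEq ι] (D : Data n ι) (x : Fin (n + 1) → ℝ),
      D.Irreducible (D.through x) → ∀ h ∈ D.through x,
      (∀ B, D.IsFlat (D.through x) B → B ≠ D.through x → D.Heavy (D.through x) B → h ∈ B) →
        D.HasLightChamber x) ∧
    ∀ {n : ℕ} {ι : Type} [Fintype ι] [DecidableEq ι] (D : Data n ι) (x : Fin (n + 1) → ℝ), n + 1 ≤ 3 →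
      D.Distinct → D.Irreducible (D.through x) → 0 < D.N (D.through x) →
      (((∀ i, D.m i = 1) ∧ ∀ j, D.a j ≤ 1) ∨
        ∀ k ∈ D.through x, ∀ k' ∈ D.through x, D.Heavy (D.through x) {k} →
          D.Heavy (D.through x) {k'} → k = k') →
        D.HasLightChamber x := by
  refine ⟨?_, ?_, ?_⟩
  · intro n ι _ D b hb κ _ x hx
    classical
    have hroot : ∀ k, 0 < D.N (D.through (x k)) →
        b.eval ((-(D.ν (D.through (x k)) / D.N (D.through (x k))) : ℝ) : ℂ) = 0 := by
      intro k hk
      have h1 := (light_iff D (x k)).1 (hx k hk)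
      rw [through_eq] at hk ⊢
      exact Pool.Agent.H73.DA.root_LC D.c D.e D.m D.w D.a D.c_ne_zero D.m_pos D.w_pos (x k) hk h1 b hb
    refine ⟨hroot, fun χ s₀ hs => ?_⟩
    have hN0 : ∀ k, 0 ≤ D.N (D.through (x k)) := by
      refine fun k => Finset.sum_nonneg fun l _ => ?_
      rcases l with i | j
      · exact Nat.cast_nonneg _
      · exact div_nonneg (Nat.cast_nonneg _) (Nat.cast_nonneg _)
    obtain ⟨k, hk, rfl⟩ := pole_zeta _ _ hN0 χ s₀ hs
    exact hroot k hk
  · intro n ι _ _ D x hirr h hh hcom
    rw [light_iff]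
    rw [through_eq] at hirr hh hcom
    exact Pool.Agent.H73.DA.LC_common D.c D.e D.m D.w D.a D.c_ne_zero D.w_pos x
      (irr_iff D _ hirr) h hh hcom
  · intro n ι _ _ D x hn hdist hirr hN h
    rw [light_iff]
    rw [through_eq] at hirr hN h
    exact Pool.Agent.H73.DA.LC_three hn D.c D.e D.m D.w D.a D.c_ne_zero D.w_pos hdist x
      (irr_iff D _ hirr) hN h

end Pool.Agent.Results.MP_504089_ag.DiagonalArrangements
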