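import Pool.Agent.H63.VI.ConeMain

/-!
# The strong monodromy conjecture for the products of an arbitrary polynomial with a general form in
arbitrary polynomials

Let `P, g_1, …, g_r ∈ ℂ[x_1, …, x_n]` be arbitrary polynomials, `n ≥ 2`, let `m ≥ 3`, and let

`f = P · G(g_1, …, g_r)`,

where `G` is a **general form of degree `m`** (its coefficients are outside of the zeros of a nonzero
polynomial `Γ`). Let `h : Y → ℂ ^ n` be a log resolution of the ideal `P · (g_1, …, g_r)`, with the
divisors `E_i` (`i ∈ J`); let `a'_i` be the order of `P` and `a_i` the order of the ideal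
`(g_1, …, g_r)` along `E_i`, and `k_i = ν_i - 1` the order of the Jacobian determinant of `h`. For general
`G` the strict transform `F` of `{G(g) = 0}` is smooth (or empty) and `F` and the `E_i` have normal
crossings (Bertini), so `h` is an embedded resolution of `f`, with the multiplicities
`N_i = a'_i + m a_i`, and the global topological zeta function of `f` is

`Z_f(s) = ∑_S (χ(E_S° \ F) + χ(E_S° ∩ F) / (s + 1)) ∏_{i ∈ S} 1 / (N_i s + ν_i)`.

The polynomials `g_j` define a morphism `φ : Y → ℙ ^ (r - 1)`. We assume that `φ` is an immersion at
some point of `E_T°` for the sets `T` of divisors with the same ratio `ν_i / N_i` which have a common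
point. This is for instance true, at all points, in the following case. Let `P` be any polynomial. By
Hironaka's theorem there is a log resolution `Y → ℂ ^ n` of `P` which is the blow-up of an ideal
`(b_1, …, b_q)`, such that the inverse image of `P · (b_1, …, b_q)` has normal crossings. Let `g` consist
of the `b_i` and the `x_j b_i`. Then `φ` is an embedding, since the blow-up is a subvariety of
`ℂ ^ n × ℙ ^ (q - 1)`. So the theorem shows that the strong monodromy conjecture (topological version,
global) is true, with the orders of the poles, for the product of every polynomial `P` with a general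
form `G(g)` of each degree `m ≥ 3` in these `g_j` (also for `P = 1`, with the `N_i` of arbitrary
blow-ups). Blanco, Budur and van der Veer (*Monodromy conjecture for log generic polynomials*) have
proved the monodromy conjecture in this situation, but the strong one (with roots of `b_f`) only under
a non-resonance condition on the multiplicities `N_i`, and without the orders. There are no such
conditions here.

Moreover **all the candidate poles** `-ν_i / N_i` (not only the poles of `Z_f`) are roots of `b_f`, and
`|T|` divisors with the ratio `α` through a point give a root `-α` of multiplicity at least `|T|`, and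
`|T| + 1` for `α = 1`, `|T| < n`; only for `|T| = n` and an integer `α ≥ 2` we obtain `n - 1`. (So in the
statement on the zeta function we have to except the integral poles `≤ -2` of order `n`. By a theorem
of Laeremans and Veys poles of order `n` are of the form `-1 / N`; so this exception does not
occur for topological zeta functions. The numbers `χ S`, `χ' S` are arbitrary integers in the
theorem.) It is enough for `T = {i}` that the restriction of `φ` to `E_i` is an immersion at
some point of `E_i` which is not on the other divisors, if only one factor `s + α` is wanted.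

As an example of the last remark, the second part of the theorem: if `P` is a weighted homogeneous
polynomial of degree `d` for the weights `u_1, …, u_n`, and the `g_j` are weighted homogeneous of the same
degree `e > 0` such that their Jacobian matrix has rank `n` at some point, then
`b_f(-(u_1 + ⋯ + u_n) / deg f) = 0` for `f = P · G(g)`, `G` a general form of degree `m ≥ 3` (for the
weights `1`: the property `b_f(-n / deg f) = 0` of the `n / d` conjecture).

The proof. Let `α = ν_i / N_i` for `i ∈ T`. If the coefficients of `G` are algebraically independent over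
the field of the coefficients of `P` and the `g_j`, then a functional equation `b(s) f ^ s = D f ^ (s + 1)`
specialises to a functional equation of a pencil `f_0 + τ f_1` over `ℂ(τ)`, divided by the factors of
`b(s)` at `s = -α`; here `f_0 = P · G_0(g)` is a *tangent member*: in local coordinates at a point
`y ∈ E_T°` it is `∏_{t ∈ T} X_t ^ (N_t)` times `∑_t c X_t ^ (δ_t)` plus terms of higher weight, with
`δ_t ∈ {2, 3}` (`G_0` is a sum of products of powers of linear forms; this needs `m ≥ 3`), and `f_1` does
not vanish on the strict side. After the substitution `X_t ↦ τ ^ (1 / δ_t) X_t` the integral of `f ^ s`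
becomes a product of values of the gamma function times a power of `τ`; a formal version of it, a
functional on Laurent series with values in `ℂ[ε] / (ε ^ μ)`, `s = -α + ε`, kills the right side, and it
does not kill the left side, if the `δ_t` for `t ∉ T` are chosen such that
`α - ∑_{t ∉ T} 1 / δ_t` is not a positive integer. Finally the multiplicities pass from very general to
general `G` by the theory of `W425.GN` (Gröbner bases in the Weyl algebra).
-/

set_option autoImplicit false

namespace Pool.Agent.Results.MP_504089_ag.GeneralMembers

open Polynomial Pool.Agent.H628R4.TP Pool.Agent.H63.VI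

/-- **The strong monodromy conjecture for `f = P · G(g_1, …, g_r)`, `G` a general form of degree
`m ≥ 3`.**

First part. Let `k i`, `a' i`, `a i` (`i ∈ J`, a finite set) be natural numbers with
`N i = a' i + m * a i ≥ 1`, and `ν i = k i + 1`. There is a nonzero polynomial `Γ` such that for all forms
`G` of degree `m` whose coefficients are not a zero of `Γ`, and for every `b` with `IsBFunction f b`
(`b(s) f ^ s = D(s) f ^ (s + 1)` for a differential operator `D(s)` in the Weyl algebra, polynomial in
`s`; for example `b = b_f`):

* Let `T ≠ ∅` be a set of divisors with `ν i = α N i`, with a chart (`IsChart`) at a point which lies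
  exactly on the divisors of `T`. If the morphism given by the `g j` is an immersion at this point then
  `(s + α) ^ (exm n |T| α)` divides `b(s)`, where `exm n |T| α` is `|T|`, but `|T| + 1` if `α = 1` and
  `|T| < n`, and `n - 1` if `|T| = n` and `α` is an integer `≥ 2`. If `T = {i}` and the restriction of
  the morphism to the divisor is an immersion then `b(-α) = 0`.

* Let `χ S`, `χ' S` be integers with `χ' S = 0` for `|S| ≥ n`, let
  `Z(s) = ∑_S (χ S + χ' S / (s + 1)) ∏_{i ∈ S} 1 / (N i s + ν i)`, and assume that the resolution satisfies
  the condition `Covered`. If `f` is not constant and `b ≠ 0` then every pole `z` of `Z` is a root of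
  `b`, of at least the same order; the only exception are poles of order `n` at integers
  `z ≤ -2`, for which `b` has a root of order at least `n - 1`.

Second part. Let `P ≠ 0` be weighted homogeneous of degree `d` and the `g j` weighted homogeneous of
degree `e ≠ 0`, for the weights `u i ≥ 0`, and let some maximal minor of the Jacobian matrix of the `g j`
be nonzero. Then `b(-(∑ u i) / (d + m e)) = 0` for general `G`. -/
theorem result {n : ℕ} (hn : 2 ≤ n) {ρ : Type} [Fintype ρ] (P : MvPolynomial (Fin n) ℂ)
    (g : ρ → MvPolynomial (Fin n) ℂ) (m : ℕ) (hm : 3 ≤ m) :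
    (∀ (J : Type) [Fintype J] (k a' a : J → ℕ), (∀ i, 1 ≤ a' i + m * a i) →
      ∃ Γ : MvPolynomial {ν : ρ →₀ ℕ // ν.degree = m} ℂ, Γ ≠ 0 ∧
        ∀ G : MvPolynomial ρ ℂ, G.IsHomogeneous m →
        MvPolynomial.eval (fun ν => G.coeff ν.1) Γ ≠ 0 →
        ∀ b : ℂ[X], IsBFunction (P * MvPolynomial.aeval g G) b →
          (∀ (T : Finset J) (α : ℚ), T.Nonempty →
            (∀ i ∈ T, (k i : ℚ) + 1 = α * (a' i + m * a i : ℕ)) →
            ∀ (x : Fin n → MvPowerSeries (Fin n) ℂ) (e : J → Fin n)
              (w : ρ → MvPowerSeries (Fin n) ℂ), IsChart P g k a' a T x e w →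
              (Immersion w Set.univ → (X + C (α : ℂ)) ^ exm n T.card α ∣ b) ∧
              (∀ i, T = {i} → Immersion w {t | t ≠ e i} → b.eval (-(α : ℂ)) = 0)) ∧
          (∀ χ χ' : Finset J → ℤ, (∀ S, χ' S ≠ 0 → S.card < n) → Covered P g m k a' a χ χ' →
            (P * MvPolynomial.aeval g G).totalDegree ≠ 0 → b ≠ 0 → ∀ z : ℂ,
            (zeta (fun i => a' i + m * a i) (fun i => k i + 1) χ χ').denom.rootMultiplicity z ≤
                b.rootMultiplicity z ∨
              ∃ q : ℕ, 2 ≤ q ∧ z = -(q : ℂ) ∧
                (zeta (fun i => a' i + m * a i) (fun i => k i + 1)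
                  χ χ').denom.rootMultiplicity z = n ∧ n ≤ b.rootMultiplicity z + 1)) ∧
    (∀ (u : Fin n → ℕ) (d e : ℕ), e ≠ 0 → P ≠ 0 → P.IsWeightedHomogeneous u d →
      (∀ j, (g j).IsWeightedHomogeneous u e) →
      (∃ c : Fin n → ρ, (Matrix.of fun i t => MvPolynomial.pderiv i (g (c t))).det ≠ 0) →
      ∃ Γ : MvPolynomial {ν : ρ →₀ ℕ // ν.degree = m} ℂ, Γ ≠ 0 ∧
        ∀ G : MvPolynomial ρ ℂ, G.IsHomogeneous m →
        MvPolynomial.eval (fun ν => G.coeff ν.1) Γ ≠ 0 →
        ∀ b : ℂ[X], IsBFunction (P * MvPolynomial.aeval g G) b →
          b.eval (-((∑ i, u i : ℕ) : ℂ) / (d + m * e : ℕ)) = 0) := by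
  classical
  refine ⟨fun J _ k a' a hN => ?_, fun u d e he hP0 hP hg hdet =>
    cone_main hn P g m hm u d e he hP0 hP hg hdet⟩
  choose Γ hΓ hΓ' using fun T : Finset J => exists_gamma P g m hm k a' a hN hn T
  refine ⟨∏ T, Γ T, Finset.prod_ne_zero_iff.2 fun T _ => hΓ T, fun G hG hne b hb => ?_⟩
  rw [map_prod, Finset.prod_ne_zero_iff] at hne
  have key := fun T => hΓ' T G hG (hne T (Finset.mem_univ T)) b hb
  refine ⟨fun T α hT hα x e w hc => ⟨fun hw => ?_, fun i hTi hw => ?_⟩,
    fun χ χ' hχ hcov hdeg hb0 z => final P g m k a' a hN G b hb key χ χ' hχ hcov hdeg hb0 z⟩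
  · have h1 := (key T α hT hα).1 ⟨x, e, w, hc, hw⟩
    rwa [C_neg, sub_neg_eq_add] at h1
  · have h1 := (key T α hT hα).2 ⟨x, e, w, i, hc, hTi, hw⟩
    rwa [pow_one, dvd_iff_isRoot] at h1

end Pool.Agent.Results.MP_504089_ag.GeneralMembers
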